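import Pool.Agent.W840.SamuelsTwo

set_option autoImplicit false
open Finset

namespace Pool.Agent.W840.FeigeCore

/-! ### one-dimensional reduction to two points -/

theorem one_dim {Ω : Type*} [Fintype Ω] (w X φ : Ω → ℝ) (hw : ∀ ω, 0 ≤ w ω)
    (hw1 : ∑ ω, w ω = 1) :
    ∃ (o0 o1 : Ω) (q : ℝ), 0 ≤ q ∧ q < 1 ∧ X o0 ≤ X o1 ∧
      (1 - q) * X o0 + q * X o1 = ∑ ω, w ω * X ω ∧
      (1 - q) * φ o0 + q * φ o1 ≤ ∑ ω, w ω * φ ω := by
  classical
  set m := ∑ ω, w ω * X ω with hm
  set e := ∑ ω, w ω * φ ω with he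
  by_contra hcon
  push Not at hcon
  set L := Finset.univ.filter (fun ω => 0 < w ω ∧ X ω < m) with hL
  set Hh := Finset.univ.filter (fun ω => 0 < w ω ∧ m < X ω) with hH
  set M := Finset.univ.filter (fun ω => 0 < w ω ∧ X ω = m) with hMM
  have split : ∀ g : Ω → ℝ, ∑ ω, w ω * g ω
      = ∑ ω ∈ L, w ω * g ω + ∑ ω ∈ Hh, w ω * g ω + ∑ ω ∈ M, w ω * g ω := by
    intro g
    rw [hL, hH, hMM, Finset.sum_filter, Finset.sum_filter, Finset.sum_filter,
      ← Finset.sum_add_distrib, ← Finset.sum_add_distrib]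
    apply Finset.sum_congr rfl
    intro ω _
    rcases (hw ω).eq_or_lt with h0 | h0
    · simp [← h0]
    · rcases lt_trichotomy (X ω) m with h | h | h
      · simp [h0, h, not_lt.mpr h.le, h.ne]
      · simp [h0, h]
      · simp [h0, h, not_lt.mpr h.le, h.ne']
  -- consequences of the negation
  have N2 : ∀ ω ∈ M, 0 < φ ω - e := by
    intro ω hω
    rw [hMM, Finset.mem_filter] at hω
    have := hcon ω ω 0 le_rfl one_pos le_rfl (by rw [hω.2.2]; ring)
    linarith
  have N1 : ∀ ω ∈ L, ∀ ω' ∈ Hh, 0 < (X ω' - m) * (φ ω - e) + (m - X ω) * (φ ω' - e) := by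
    intro ω hω ω' hω'
    rw [hL, Finset.mem_filter] at hω
    rw [hH, Finset.mem_filter] at hω'
    have h1 : 0 < X ω' - X ω := by linarith [hω.2.2, hω'.2.2]
    have h2 := hcon ω ω' ((m - X ω) / (X ω' - X ω))
      (div_nonneg (by linarith [hω.2.2]) h1.le)
      (by rw [div_lt_one h1]; linarith [hω'.2.2]) (by linarith)
      (by field_simp; ring)
    have h3 : (1 - (m - X ω) / (X ω' - X ω)) * φ ω + (m - X ω) / (X ω' - X ω) * φ ω'
        = ((X ω' - m) * φ ω + (m - X ω) * φ ω') / (X ω' - X ω) := by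
      field_simp; ring
    rw [h3, lt_div_iff₀ h1] at h2
    nlinarith
  set PL := ∑ ω ∈ L, w ω * (φ ω - e) with hPL
  set PH := ∑ ω ∈ Hh, w ω * (φ ω - e) with hPH
  set PM := ∑ ω ∈ M, w ω * (φ ω - e) with hPM
  have hz : PL + PH + PM = 0 := by
    rw [← split (fun ω => φ ω - e)]
    have : ∑ ω, w ω * (φ ω - e) = ∑ ω, w ω * φ ω - (∑ ω, w ω) * e := by
      rw [Finset.sum_mul, ← Finset.sum_sub_distrib]
      exact Finset.sum_congr rfl fun ω _ => by ring
    rw [this, hw1, ← he]; ring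
  set cL := ∑ ω ∈ L, w ω * (m - X ω) with hcL
  set cH := ∑ ω ∈ Hh, w ω * (X ω - m) with hcH
  have hc : cL = cH := by
    have h1 := split (fun ω => X ω - m)
    have h2 : ∑ ω, w ω * (X ω - m) = 0 := by
      have : ∑ ω, w ω * (X ω - m) = ∑ ω, w ω * X ω - (∑ ω, w ω) * m := by
        rw [Finset.sum_mul, ← Finset.sum_sub_distrib]
        exact Finset.sum_congr rfl fun ω _ => by ring
      rw [this, hw1, ← hm]; ring
    have h3 : ∑ ω ∈ M, w ω * (X ω - m) = 0 := by
      apply Finset.sum_eq_zero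
      intro ω hω
      rw [hMM, Finset.mem_filter] at hω
      rw [hω.2.2]; ring
    have h4 : ∑ ω ∈ L, w ω * (X ω - m) = - cL := by
      rw [hcL, ← Finset.sum_neg_distrib]
      exact Finset.sum_congr rfl fun ω _ => by ring
    rw [h2, h3, h4] at h1
    linarith
  have hPM0 : 0 ≤ PM := Finset.sum_nonneg fun ω hω => mul_nonneg (hw ω) (N2 ω hω).le
  have hdouble : ∑ ω ∈ L, ∑ ω' ∈ Hh,
      (w ω * w ω') * ((X ω' - m) * (φ ω - e) + (m - X ω) * (φ ω' - e)) = cH * PL + cL * PH := by
    have h1 : ∀ ω ∈ L, ∑ ω' ∈ Hh,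
        (w ω * w ω') * ((X ω' - m) * (φ ω - e) + (m - X ω) * (φ ω' - e))
        = cH * (w ω * (φ ω - e)) + (w ω * (m - X ω)) * PH := by
      intro ω _
      rw [hcH, hPH, Finset.sum_mul, Finset.mul_sum, ← Finset.sum_add_distrib]
      exact Finset.sum_congr rfl fun ω' _ => by ring
    rw [Finset.sum_congr rfl h1, Finset.sum_add_distrib, ← Finset.mul_sum, ← Finset.sum_mul]
  by_cases hLe : L.Nonempty
  · have hcL0 : 0 < cL := by
      apply Finset.sum_pos _ hLe
      intro ω hω
      rw [hL, Finset.mem_filter] at hω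
      exact mul_pos hω.2.1 (by linarith [hω.2.2])
    have hHe : Hh.Nonempty := by
      by_contra hne
      rw [Finset.not_nonempty_iff_eq_empty] at hne
      rw [hc, hcH, hne, Finset.sum_empty] at hcL0
      exact lt_irrefl _ hcL0
    have hpos : 0 < ∑ ω ∈ L, ∑ ω' ∈ Hh,
        (w ω * w ω') * ((X ω' - m) * (φ ω - e) + (m - X ω) * (φ ω' - e)) := by
      apply Finset.sum_pos _ hLe
      intro ω hω
      apply Finset.sum_pos _ hHe
      intro ω' hω'
      have hω2 := hω
      have hω2' := hω'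
      rw [hL, Finset.mem_filter] at hω2
      rw [hH, Finset.mem_filter] at hω2'
      exact mul_pos (mul_pos hω2.2.1 hω2'.2.1) (N1 ω hω ω' hω')
    rw [hdouble, ← hc] at hpos
    have : PL + PH ≤ 0 := by linarith
    nlinarith
  · rw [Finset.not_nonempty_iff_eq_empty] at hLe
    have hcL0 : cL = 0 := by rw [hcL, hLe, Finset.sum_empty]
    have hHe : Hh = ∅ := by
      by_contra hne
      have hne' : Hh.Nonempty := Finset.nonempty_iff_ne_empty.mpr hne
      have : 0 < cH := by
        apply Finset.sum_pos _ hne'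
        intro ω hω
        rw [hH, Finset.mem_filter] at hω
        exact mul_pos hω.2.1 (by linarith [hω.2.2])
      linarith
    have hMne : M.Nonempty := by
      by_contra hne
      rw [Finset.not_nonempty_iff_eq_empty] at hne
      have := split (fun _ => (1 : ℝ))
      simp only [mul_one, hLe, hHe, hne, Finset.sum_empty, add_zero] at this
      rw [hw1] at this
      exact one_ne_zero this
    have hPMpos : 0 < PM := by
      apply Finset.sum_pos _ hMne
      intro ω hω
      have h2 := N2 ω hω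
      rw [hMM, Finset.mem_filter] at hω
      exact mul_pos hω.2.1 h2
    have h1 : PL = 0 := by rw [hPL, hLe, Finset.sum_empty]
    have h2 : PH = 0 := by rw [hPH, hHe, Finset.sum_empty]
    linarith

/-! ### products of finite laws -/

variable {ι Ω : Type*} [Fintype ι] [DecidableEq ι] [Fintype Ω] [DecidableEq Ω]

/-- Expectation of `h` under the product of the laws `p i` on `Ω`. -/
noncomputable def PF (p : ι → Ω → ℝ) (h : (ι → Ω) → ℝ) : ℝ :=
  ∑ f : ι → Ω, (∏ i, p i (f i)) * h f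

/-- Two-point law. -/
noncomputable def tp (o0 o1 : Ω) (q : ℝ) (ω : Ω) : ℝ :=
  q * (if ω = o1 then 1 else 0) + (1 - q) * (if ω = o0 then 1 else 0)

theorem tp_sum (o0 o1 : Ω) (q : ℝ) (g : Ω → ℝ) :
    ∑ ω, tp o0 o1 q ω * g ω = (1 - q) * g o0 + q * g o1 := by
  unfold tp
  simp only [add_mul, Finset.sum_add_distrib, mul_assoc, ite_mul, one_mul, zero_mul, mul_ite,
    mul_zero, Finset.sum_ite_eq', Finset.mem_univ, if_true]
  ring

theorem tp_nonneg (o0 o1 : Ω) {q : ℝ} (hq0 : 0 ≤ q) (hq1 : q < 1) (ω : Ω) :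
    0 ≤ tp o0 o1 q ω := by
  unfold tp
  have h1 : (0:ℝ) ≤ if ω = o1 then 1 else 0 := by split_ifs <;> norm_num
  have h2 : (0:ℝ) ≤ if ω = o0 then 1 else 0 := by split_ifs <;> norm_num
  have := mul_nonneg hq0 h1
  have := mul_nonneg (by linarith : (0:ℝ) ≤ 1 - q) h2
  linarith

theorem PF_coord (p : ι → Ω → ℝ) (h : (ι → Ω) → ℝ) (i : ι) (r : Ω → ℝ) :
    PF (Function.update p i r) h
      = ∑ ω, r ω * ∑ f : ι → Ω, (if f i = ω then (∏ j ∈ Finset.univ.erase i, p j (f j)) * h f
          else 0) := by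
  unfold PF
  simp only [Finset.mul_sum]
  rw [Finset.sum_comm]
  apply Finset.sum_congr rfl
  intro f _
  have h1 : ∑ ω, r ω * (if f i = ω then (∏ j ∈ Finset.univ.erase i, p j (f j)) * h f else 0)
      = r (f i) * ((∏ j ∈ Finset.univ.erase i, p j (f j)) * h f) := by
    rw [Finset.sum_eq_single (f i)]
    · simp
    · intro b _ hb
      rw [if_neg (Ne.symm hb), mul_zero]
    · intro hb; exact absurd (Finset.mem_univ _) hb
  rw [h1, ← Finset.mul_prod_erase Finset.univ _ (Finset.mem_univ i), Function.update_self]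
  have h2 : ∏ j ∈ Finset.univ.erase i, Function.update p i r j (f j)
      = ∏ j ∈ Finset.univ.erase i, p j (f j) := by
    apply Finset.prod_congr rfl
    intro j hj
    rw [Function.update_of_ne (Finset.ne_of_mem_erase hj)]
  rw [h2]
  ring

/-- Every product of finite laws can be replaced by two-point laws with the same means without
increasing the expectation of `h`. -/
theorem reduce_two (p X : ι → Ω → ℝ) (hp : ∀ i ω, 0 ≤ p i ω) (hp1 : ∀ i, ∑ ω, p i ω = 1)
    (h : (ι → Ω) → ℝ) (K : Finset ι) :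
    ∃ p' : ι → Ω → ℝ, (∀ i ω, 0 ≤ p' i ω) ∧ (∀ i, ∑ ω, p' i ω = 1) ∧
      (∀ i, ∑ ω, p' i ω * X i ω = ∑ ω, p i ω * X i ω) ∧
      (∀ i ∈ K, ∃ (o0 o1 : Ω) (q : ℝ), 0 ≤ q ∧ q < 1 ∧ X i o0 ≤ X i o1 ∧ p' i = tp o0 o1 q) ∧
      PF p' h ≤ PF p h := by
  induction K using Finset.induction_on with
  | empty => exact ⟨p, hp, hp1, fun _ => rfl, by simp, le_rfl⟩
  | insert i K hi ih =>
    obtain ⟨p', h1, h2, h3, h4, h5⟩ := ih
    set φ : Ω → ℝ := fun ω => ∑ f : ι → Ω,
      (if f i = ω then (∏ j ∈ Finset.univ.erase i, p' j (f j)) * h f else 0) with hφ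
    obtain ⟨o0, o1, q, hq0, hq1, hle, hmean, hval⟩ := one_dim (p' i) (X i) φ (h1 i) (h2 i)
    refine ⟨Function.update p' i (tp o0 o1 q), ?_, ?_, ?_, ?_, ?_⟩
    · intro j ω
      by_cases hj : j = i
      · subst hj
        rw [Function.update_self]
        exact tp_nonneg o0 o1 hq0 hq1 ω
      · rw [Function.update_of_ne hj]
        exact h1 j ω
    · intro j
      by_cases hj : j = i
      · subst hj
        rw [Function.update_self]
        have := tp_sum o0 o1 q (fun _ => (1:ℝ))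
        simp only [mul_one] at this
        rw [this]; ring
      · rw [Function.update_of_ne hj]
        exact h2 j
    · intro j
      by_cases hj : j = i
      · subst hj
        rw [Function.update_self, tp_sum, hmean, h3]
      · rw [Function.update_of_ne hj]
        exact h3 j
    · intro j hj
      by_cases hji : j = i
      · subst hji
        exact ⟨o0, o1, q, hq0, hq1, hle, Function.update_self _ _ _⟩
      · obtain ⟨o0', o1', q', a1, a2, a3, a4⟩ := h4 j (Finset.mem_of_mem_insert_of_ne hj hji)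
        exact ⟨o0', o1', q', a1, a2, a3, by rw [Function.update_of_ne hji]; exact a4⟩
    · refine le_trans ?_ h5
      rw [PF_coord]
      have hself : PF p' h = PF (Function.update p' i (p' i)) h := by
        rw [Function.update_eq_self]
      rw [hself, PF_coord]
      change ∑ ω, tp o0 o1 q ω * φ ω ≤ ∑ ω, p' i ω * φ ω
      rw [tp_sum]
      exact hval

theorem PF_tp (o0 o1 : ι → Ω) (q : ι → ℝ) (h : (ι → Ω) → ℝ) :
    PF (fun i => tp (o0 i) (o1 i) (q i)) h
      = ∑ S ∈ (Finset.univ : Finset ι).powerset, ((∏ i ∈ S, q i) * ∏ i ∈ Finset.univ \ S, (1 - q i))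
          * h (fun i => if i ∈ S then o1 i else o0 i) := by
  unfold PF tp
  simp only [Finset.prod_add, Finset.sum_mul]
  rw [Finset.sum_comm]
  apply Finset.sum_congr rfl
  intro S _
  set fS : ι → Ω := fun i => if i ∈ S then o1 i else o0 i with hfS
  rw [Finset.sum_eq_single fS]
  · have e1 : ∏ i ∈ S, q i * (if fS i = o1 i then (1:ℝ) else 0) = ∏ i ∈ S, q i := by
      apply Finset.prod_congr rfl
      intro i hi
      have : fS i = o1 i := by rw [hfS]; simp [hi]
      rw [if_pos this, mul_one]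
    have e2 : ∏ i ∈ Finset.univ \ S, (1 - q i) * (if fS i = o0 i then (1:ℝ) else 0)
        = ∏ i ∈ Finset.univ \ S, (1 - q i) := by
      apply Finset.prod_congr rfl
      intro i hi
      have hi' : i ∉ S := (Finset.mem_sdiff.mp hi).2
      have : fS i = o0 i := by rw [hfS]; simp [hi']
      rw [if_pos this, mul_one]
    rw [e1, e2]
  · intro f _ hf
    have : ∃ i, f i ≠ fS i := by
      by_contra hall
      push Not at hall
      exact hf (funext hall)
    obtain ⟨i, hi⟩ := this
    by_cases hiS : i ∈ S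
    · have hne : f i ≠ o1 i := by rw [hfS] at hi; simpa [hiS] using hi
      have : ∏ i ∈ S, q i * (if f i = o1 i then (1:ℝ) else 0) = 0 :=
        Finset.prod_eq_zero hiS (by rw [if_neg hne, mul_zero])
      rw [this]; ring
    · have hne : f i ≠ o0 i := by rw [hfS] at hi; simpa [hiS] using hi
      have : ∏ i ∈ Finset.univ \ S, (1 - q i) * (if f i = o0 i then (1:ℝ) else 0) = 0 :=
        Finset.prod_eq_zero (Finset.mem_sdiff.mpr ⟨Finset.mem_univ i, hiS⟩)
          (by rw [if_neg hne, mul_zero])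
      rw [this]; ring
  · intro hb; exact absurd (Finset.mem_univ _) hb

/-- Reduction of a tail probability of a sum of independent variables with finite laws to the
`{0, a_i}` case. -/
theorem reduce_to_U (p X : ι → Ω → ℝ) (hp : ∀ i ω, 0 ≤ p i ω) (hp1 : ∀ i, ∑ ω, p i ω = 1)
    (hX : ∀ i ω, 0 ≤ X i ω) (δ : ℝ) :
    ∃ q a : ι → ℝ, (∀ i, 0 ≤ q i ∧ q i < 1) ∧ (∀ i, 0 ≤ a i) ∧
      (∀ i, q i * a i ≤ ∑ ω, p i ω * X i ω) ∧
      U q a (δ + ∑ i, q i * a i) Finset.univ
        ≤ ∑ f : ι → Ω, (∏ i, p i (f i)) *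
            (if ∑ i, X i (f i) < δ + ∑ i, ∑ ω, p i ω * X i ω then 1 else 0) := by
  set T := δ + ∑ i, ∑ ω, p i ω * X i ω with hT
  set h : (ι → Ω) → ℝ := fun f => if ∑ i, X i (f i) < T then 1 else 0 with hh
  obtain ⟨p', h1, h2, h3, h4, h5⟩ := reduce_two p X hp hp1 h Finset.univ
  choose o0 o1 q hq0 hq1 hle htp using fun i => h4 i (Finset.mem_univ i)
  have hmean : ∀ i, X i (o0 i) + q i * (X i (o1 i) - X i (o0 i)) = ∑ ω, p i ω * X i ω := by
    intro i
    have := h3 i
    rw [htp i, tp_sum] at this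
    linarith
  refine ⟨q, fun i => X i (o1 i) - X i (o0 i), fun i => ⟨hq0 i, hq1 i⟩,
    fun i => by linarith [hle i], fun i => by linarith [hmean i, hX i (o0 i)], ?_⟩
  refine le_trans (le_of_eq ?_) h5
  have hp' : p' = fun i => tp (o0 i) (o1 i) (q i) := funext htp
  rw [hp', PF_tp]
  unfold U E
  apply Finset.sum_congr rfl
  intro S _
  congr 1
  rw [hh]
  unfold ind
  have hsum : ∑ i, X i (if i ∈ S then o1 i else o0 i)
      = ∑ i, X i (o0 i) + ∑ i ∈ S, (X i (o1 i) - X i (o0 i)) := by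
    have e1 : ∑ i ∈ S, (X i (o1 i) - X i (o0 i))
        = ∑ i, (if i ∈ S then (X i (o1 i) - X i (o0 i)) else 0) := by
      rw [← Finset.sum_filter]
      congr 1
      ext i; simp
    rw [e1, ← Finset.sum_add_distrib]
    apply Finset.sum_congr rfl
    intro i _
    by_cases hi : i ∈ S
    · rw [if_pos hi, if_pos hi]; ring
    · rw [if_neg hi, if_neg hi]; ring
  have hTT : T = ∑ i, X i (o0 i) + (δ + ∑ i, q i * (X i (o1 i) - X i (o0 i))) := by
    rw [hT]
    have : ∑ i, ∑ ω, p i ω * X i ω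
        = ∑ i, X i (o0 i) + ∑ i, q i * (X i (o1 i) - X i (o0 i)) := by
      rw [← Finset.sum_add_distrib]
      exact Finset.sum_congr rfl fun i _ => (hmean i).symm
    rw [this]; ring
  simp only [hsum, hTT, add_lt_add_iff_left]

omit [Fintype ι] in
/-- Monotonicity of the product bound in the means. -/
theorem prod_mono {μ' μ : ι → ℝ} (h0 : ∀ i, 0 ≤ μ' i) (hle : ∀ i, μ' i ≤ μ i) {δ : ℝ}
    (hδ : 0 < δ) (hμδ : ∀ i, μ i ≤ δ) (A : Finset ι) :
    ∏ i ∈ A, (1 - μ i / (δ + ∑ j ∈ A, μ j)) ≤ ∏ i ∈ A, (1 - μ' i / (δ + ∑ j ∈ A, μ' j)) := by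
  have key : ∀ K : Finset ι, K ⊆ A →
      ∏ i ∈ A, (1 - (if i ∈ K then μ i else μ' i) / (δ + ∑ j ∈ A, (if j ∈ K then μ j else μ' j)))
        ≤ ∏ i ∈ A, (1 - μ' i / (δ + ∑ j ∈ A, μ' j)) := by
    intro K
    induction K using Finset.induction_on with
    | empty => intro _; simp
    | insert k K hk ih =>
      intro hKA
      have hkA : k ∈ A := hKA (Finset.mem_insert_self k K)
      have hKA' : K ⊆ A := fun x hx => hKA (Finset.mem_insert_of_mem hx)
      refine le_trans ?_ (ih hKA')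
      set ν : ι → ℝ := fun i => if i ∈ K then μ i else μ' i with hν
      have hν0 : ∀ i, 0 ≤ ν i := by
        intro i; rw [hν]; dsimp only; split_ifs
        · exact (h0 i).trans (hle i)
        · exact h0 i
      have hνδ : ∀ i, ν i ≤ δ := by
        intro i; rw [hν]; dsimp only; split_ifs
        · exact hμδ i
        · exact (hle i).trans (hμδ i)
      have hνk : ν k = μ' k := by rw [hν]; simp [hk]
      have hnew : ∀ i, (if i ∈ insert k K then μ i else μ' i) = if i = k then μ k else ν i := by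
        intro i
        by_cases hik : i = k
        · subst hik; simp
        · rw [hν]; simp [hik]
      have hs1 : ∑ j ∈ A, (if j ∈ insert k K then μ j else μ' j)
          = μ k + ∑ j ∈ A.erase k, ν j := by
        rw [← Finset.add_sum_erase A _ hkA]
        rw [hnew k, if_pos rfl]
        congr 1
        apply Finset.sum_congr rfl
        intro j hj
        rw [hnew j, if_neg (Finset.ne_of_mem_erase hj)]
      have hs2 : ∑ j ∈ A, ν j = μ' k + ∑ j ∈ A.erase k, ν j := by
        rw [← Finset.add_sum_erase A _ hkA, hνk]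
      set D0 := δ + ∑ j ∈ A.erase k, ν j with hD0
      have hD0pos : 0 < D0 := by
        have := Finset.sum_nonneg (s := A.erase k) fun i _ => hν0 i
        linarith
      have hdec := prod_dec (μ := ν) hν0 (A.erase k) hδ (fun i _ => hνδ i)
        (x := D0 + μ' k) (y := D0 + μ k) (by rw [hD0]; linarith [h0 k]) (by linarith [hle k])
      have hx0 : 0 < D0 + μ' k := by linarith [h0 k]
      have hy0 : 0 < D0 + μ k := by linarith [h0 k, hle k]
      have e1 : ∏ i ∈ A, (1 - (if i ∈ insert k K then μ i else μ' i)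
          / (δ + ∑ j ∈ A, (if j ∈ insert k K then μ j else μ' j)))
          = D0 * ((∏ j ∈ A.erase k, (1 - ν j / (D0 + μ k))) / (D0 + μ k)) := by
        rw [hs1]
        have hT1 : δ + (μ k + ∑ j ∈ A.erase k, ν j) = D0 + μ k := by rw [hD0]; ring
        rw [hT1, ← Finset.mul_prod_erase A _ hkA, hnew k, if_pos rfl]
        have e3 : ∏ j ∈ A.erase k, (1 - (if j ∈ insert k K then μ j else μ' j) / (D0 + μ k))
            = ∏ j ∈ A.erase k, (1 - ν j / (D0 + μ k)) := by
          apply Finset.prod_congr rfl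
          intro j hj
          rw [hnew j, if_neg (Finset.ne_of_mem_erase hj)]
        rw [e3]
        field_simp
        ring
      have e2 : ∏ i ∈ A, (1 - ν i / (δ + ∑ j ∈ A, ν j))
          = D0 * ((∏ j ∈ A.erase k, (1 - ν j / (D0 + μ' k))) / (D0 + μ' k)) := by
        rw [hs2]
        have hT1 : δ + (μ' k + ∑ j ∈ A.erase k, ν j) = D0 + μ' k := by rw [hD0]; ring
        rw [hT1, ← Finset.mul_prod_erase A _ hkA, hνk]
        field_simp
        ring
      rw [e1]
      have e2' : ∏ i ∈ A, (1 - (if i ∈ K then μ i else μ' i)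
          / (δ + ∑ j ∈ A, (if j ∈ K then μ j else μ' j)))
          = ∏ i ∈ A, (1 - ν i / (δ + ∑ j ∈ A, ν j)) := rfl
      rw [e2', e2]
      exact mul_le_mul_of_nonneg_left hdec hD0pos.le
  have := key A (Finset.Subset.refl A)
  refine le_trans (le_of_eq ?_) this
  apply Finset.prod_congr rfl
  intro i hi
  rw [if_pos hi]
  congr 2
  congr 1
  exact Finset.sum_congr rfl fun j hj => by rw [if_pos hj]

/-- **Samuels' bound when all means are at most `δ`** (finite laws):
`P(∑ X_i < δ + ∑ μ_i) ≥ ∏ (1 - μ_i / (δ + ∑ μ_j))`. -/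
theorem samuels_prod (p X : ι → Ω → ℝ) (hp : ∀ i ω, 0 ≤ p i ω) (hp1 : ∀ i, ∑ ω, p i ω = 1)
    (hX : ∀ i ω, 0 ≤ X i ω) {δ : ℝ} (hδ : 0 < δ) (hμ : ∀ i, ∑ ω, p i ω * X i ω ≤ δ) :
    ∏ i, (1 - (∑ ω, p i ω * X i ω) / (δ + ∑ j, ∑ ω, p j ω * X j ω))
      ≤ ∑ f : ι → Ω, (∏ i, p i (f i)) *
          (if ∑ i, X i (f i) < δ + ∑ i, ∑ ω, p i ω * X i ω then 1 else 0) := by
  obtain ⟨q, a, hq, ha, hqa, hU⟩ := reduce_to_U p X hp hp1 hX δ
  refine le_trans ?_ hU
  have h1 := two_point_prod hq ha hδ (fun i => (hqa i).trans (hμ i)) Finset.univ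
  refine le_trans ?_ h1
  exact prod_mono (fun i => mul_nonneg (hq i).1 (ha i)) hqa hδ hμ Finset.univ

/-- Equal threshold form: if all means are at most `x` and `x ≤ 1/(k+1)`, then the sum of `k`
independent nonnegative variables is below `1` with probability at least `(1-x)^k`. -/
theorem samuels_pow (p X : ι → Ω → ℝ) (hp : ∀ i ω, 0 ≤ p i ω) (hp1 : ∀ i, ∑ ω, p i ω = 1)
    (hX : ∀ i ω, 0 ≤ X i ω) {x : ℝ} (hx : x * (Fintype.card ι + 1) ≤ 1)
    (hμ : ∀ i, ∑ ω, p i ω * X i ω = x) :
    (1 - x) ^ (Fintype.card ι) ≤ ∑ f : ι → Ω, (∏ i, p i (f i)) *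
          (if ∑ i, X i (f i) < 1 then 1 else 0) := by
  rcases isEmpty_or_nonempty ι with hι | hι
  · simp
  · have hx0 : 0 ≤ x := by
      obtain ⟨i⟩ := hι
      rw [← hμ i]
      exact Finset.sum_nonneg fun ω _ => mul_nonneg (hp i ω) (hX i ω)
    have hcard : (0:ℝ) < Fintype.card ι := by exact_mod_cast Fintype.card_pos
    have hsum : ∑ i, ∑ ω, p i ω * X i ω = Fintype.card ι * x := by
      rw [Finset.sum_congr rfl (fun i _ => hμ i)]
      simp
    by_cases hx1 : x = 0
    · have hδ : (0:ℝ) < 1 - Fintype.card ι * x := by rw [hx1]; norm_num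
      have h := samuels_prod p X hp hp1 hX hδ (fun i => by rw [hμ i, hx1]; norm_num)
      rw [hsum] at h
      have e1 : 1 - Fintype.card ι * x + Fintype.card ι * x = 1 := by ring
      rw [e1] at h
      simp only [hμ, div_one, Finset.prod_const, Finset.card_univ] at h
      exact h
    · have hxpos : 0 < x := lt_of_le_of_ne hx0 (Ne.symm hx1)
      have hδ : x ≤ 1 - Fintype.card ι * x := by nlinarith
      have h := samuels_prod p X hp hp1 hX (lt_of_lt_of_le hxpos hδ) (fun i => by rw [hμ i]; exact hδ)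
      rw [hsum] at h
      have e1 : 1 - Fintype.card ι * x + Fintype.card ι * x = 1 := by ring
      rw [e1] at h
      simp only [hμ, div_one, Finset.prod_const, Finset.card_univ] at h
      exact h

end Pool.Agent.W840.FeigeCore
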