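import Pool.Agent.W840.FeigeCore

set_option autoImplicit false
open Finset

namespace Pool.Agent.W840.FeigeCore

variable {ι : Type*} [DecidableEq ι] {q a : ι → ℝ}

theorem rpow_aux {ρ x y : ℝ} (hρ : 0 ≤ ρ) (hx : 1 + ρ ≤ x) (hxy : x ≤ y) :
    (1 - 1 / y) ^ ρ ≤ y / x * (1 - 1 / x) ^ ρ := by
  rcases hρ.eq_or_lt with h0 | h0
  · subst h0
    rw [Real.rpow_zero, Real.rpow_zero, mul_one]
    rw [le_div_iff₀ (by linarith)]
    linarith
  · have hx1 : 1 < x := by linarith
    have hx0 : 0 < x := by linarith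
    have hy1 : 1 < y := by linarith
    have hy0 : 0 < y := by linarith
    have hbx : 0 < 1 - 1 / x := by
      rw [sub_pos, div_lt_one hx0]; exact hx1
    have hby : 0 < 1 - 1 / y := by
      rw [sub_pos, div_lt_one hy0]; exact hy1
    -- ratio
    have hr : (1 - 1 / y) ^ ρ ≤ (1 - 1 / x) ^ ρ * Real.exp ((y - x) / y) := by
      have h1 : (1 - 1 / y) ≤ (1 - 1 / x) * Real.exp ((y - x) / (y * (x - 1))) := by
        have h2 := Real.add_one_le_exp ((y - x) / (y * (x - 1)))
        have h3 : (1 - 1 / y) = (1 - 1 / x) * ((y - x) / (y * (x - 1)) + 1) := by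
          have : x - 1 ≠ 0 := by linarith
          field_simp
          ring
        rw [h3]
        exact mul_le_mul_of_nonneg_left h2 hbx.le
      calc (1 - 1 / y) ^ ρ ≤ ((1 - 1 / x) * Real.exp ((y - x) / (y * (x - 1)))) ^ ρ :=
            Real.rpow_le_rpow hby.le h1 hρ
        _ = (1 - 1 / x) ^ ρ * (Real.exp ((y - x) / (y * (x - 1)))) ^ ρ :=
            Real.mul_rpow hbx.le (Real.exp_pos _).le
        _ ≤ (1 - 1 / x) ^ ρ * Real.exp ((y - x) / y) := by
            apply mul_le_mul_of_nonneg_left _ (Real.rpow_nonneg hbx.le _)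
            rw [← Real.exp_mul]
            apply Real.exp_le_exp.mpr
            have h4 : (y - x) / (y * (x - 1)) * ρ = (y - x) / y * (ρ / (x - 1)) := by
              have : x - 1 ≠ 0 := by linarith
              field_simp
            rw [h4]
            have h5 : 0 ≤ (y - x) / y := div_nonneg (by linarith) hy0.le
            have h6 : ρ / (x - 1) ≤ 1 := by
              rw [div_le_one (by linarith)]; linarith
            nlinarith
    have he : Real.exp ((y - x) / y) ≤ y / x := by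
      have h7 := Real.add_one_le_exp (-((y - x) / y))
      have h8 : -((y - x) / y) + 1 = x / y := by field_simp; ring
      rw [h8, Real.exp_neg] at h7
      have h9 : 0 < x / y := div_pos hx0 hy0
      have h10 : Real.exp ((y - x) / y) ≤ (x / y)⁻¹ := by
        rw [le_inv_comm₀ (Real.exp_pos _) h9]
        exact h7
      rwa [inv_div] at h10
    calc (1 - 1 / y) ^ ρ ≤ (1 - 1 / x) ^ ρ * Real.exp ((y - x) / y) := hr
      _ ≤ (1 - 1 / x) ^ ρ * (y / x) :=
          mul_le_mul_of_nonneg_left he (Real.rpow_nonneg hbx.le _)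
      _ = _ := by ring

theorem step_ineq {ρ μ x y : ℝ} (hρ : 0 ≤ ρ) (hx : 1 + ρ ≤ x) (hxy : x ≤ y) (hμ0 : 0 ≤ μ)
    (hμ1 : μ ≤ 1) (hy : 1 < y) :
    (1 - 1 / y) ^ (ρ + μ) ≤ (y - μ) / x * (1 - 1 / x) ^ ρ := by
  have hy0 : 0 < y := by linarith
  have hx0 : 0 < x := by linarith
  have hby : 0 < 1 - 1 / y := by
    rw [sub_pos, div_lt_one hy0]; exact hy
  have h1 := rpow_aux hρ hx hxy
  have h2 : (1 - 1 / y) ^ μ ≤ 1 - μ / y := by
    have := rpow_one_add_le_one_add_mul_self (s := -(1 / y)) (p := μ)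
      (by rw [neg_le_neg_iff, div_le_one hy0]; linarith) hμ0 hμ1
    have e1 : 1 + -(1 / y) = 1 - 1 / y := by ring
    have e2 : 1 + μ * -(1 / y) = 1 - μ / y := by ring
    rw [e1, e2] at this
    exact this
  rw [Real.rpow_add hby]
  have h3 : 0 ≤ 1 - μ / y := by
    rw [sub_nonneg, div_le_one hy0]; linarith
  calc (1 - 1 / y) ^ ρ * (1 - 1 / y) ^ μ
      ≤ (y / x * (1 - 1 / x) ^ ρ) * (1 - μ / y) :=
        mul_le_mul h1 h2 (Real.rpow_nonneg hby.le _)
          (le_trans (Real.rpow_nonneg hby.le _) h1)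
    _ = (y - μ) / x * (1 - 1 / x) ^ ρ := by
        have : y / x * (1 - μ / y) = (y - μ) / x := by field_simp
        rw [← this]; ring

/-- The potential never drops below its initial value. -/
theorem potential (hq : ∀ i, 0 < q i ∧ q i < 1) (ha : ∀ i, 0 < a i) (hμ : ∀ i, q i * a i ≤ 1)
    {T : ℝ} (hT : 1 < T) : ∀ (k : ℕ) (s : Finset ι), s.card = k →
      ∑ i ∈ s, q i * a i ≤ T - 1 →
      (1 - 1 / T) ^ (T - 1)
        ≤ U q a T s * (1 - 1 / (G q a T s / U q a T s)) ^ (T - 1 - ∑ i ∈ s, q i * a i) := by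
  intro k
  induction k with
  | zero =>
    intro s hs _
    rw [Finset.card_eq_zero] at hs
    subst hs
    have h1 : U q a T ∅ = 1 := by
      unfold U; rw [E_empty]; unfold ind; rw [if_pos (by linarith)]
    have h2 : G q a T ∅ = T := by
      unfold G; rw [E_empty]; unfold pos; rw [max_eq_left (by linarith)]; ring
    rw [h1, h2]
    simp
  | succ k ih =>
    intro s hs hM
    have hne : s.Nonempty := by
      rw [← Finset.card_pos]; omega
    have hT0 : 0 < T := by linarith
    have hU := U_pos (a := a) hq hT0 s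
    obtain ⟨i, hi, hgood⟩ := exists_good hq ha T s hne hU
    have hU' := U_pos (a := a) hq hT0 (s.erase i)
    have hcard : (s.erase i).card = k := by
      rw [Finset.card_erase_of_mem hi]; omega
    have hsum : ∑ j ∈ s.erase i, q j * a j + q i * a i = ∑ j ∈ s, q j * a j :=
      Finset.sum_erase_add s _ hi
    have hμ0 : 0 < q i * a i := mul_pos (hq i).1 (ha i)
    have hM' : ∑ j ∈ s.erase i, q j * a j ≤ T - 1 := by linarith
    have hIH := ih (s.erase i) hcard hM'
    set ρ := T - 1 - ∑ j ∈ s, q j * a j with hρdef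
    set u := U q a T s with hu
    set g := G q a T s with hg
    set u' := U q a T (s.erase i) with hu'
    set g' := G q a T (s.erase i) with hg'
    set μ := q i * a i with hμdef
    have hρ : 0 ≤ ρ := by rw [hρdef]; linarith
    have hexp : T - 1 - ∑ j ∈ s.erase i, q j * a j = ρ + μ := by
      rw [hρdef]; linarith
    rw [hexp] at hIH
    have hge : 1 + ρ ≤ g := by
      have := G_ge (a := a) hq T s
      rw [hρdef]; linarith
    have hge' : 1 + ρ + μ ≤ g' := by
      have := G_ge (a := a) hq T (s.erase i)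
      rw [hρdef]; linarith
    have hu1 : u ≤ 1 := U_le_one hq T s
    have hu1' : u' ≤ 1 := U_le_one hq T (s.erase i)
    have hx : 1 + ρ ≤ g / u := by
      rw [le_div_iff₀ hU]
      nlinarith
    have hy : 1 + ρ + μ ≤ g' / u' := by
      rw [le_div_iff₀ hU']
      nlinarith
    have hxy : g / u ≤ g' / u' := by
      rw [div_le_div_iff₀ hU hU']
      nlinarith
    have hstep : g' - μ * u' ≤ g := G_step hq ha T s hi
    have hmain := step_ineq hρ hx hxy hμ0.le (hμ i) (by linarith : (1:ℝ) < g' / u')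
    have hx0 : 0 < g / u := by linarith
    have hbx : 0 ≤ 1 - 1 / (g / u) := by
      rw [sub_nonneg, div_le_one hx0]; linarith
    have huu : u' * ((g' / u' - μ) / (g / u)) ≤ u := by
      have e1 : u' * ((g' / u' - μ) / (g / u)) = (g' - μ * u') / (g / u) := by
        field_simp
      rw [e1, div_le_iff₀ hx0]
      have e2 : u * (g / u) = g := by field_simp
      rw [e2]
      exact hstep
    calc (1 - 1 / T) ^ (T - 1) ≤ u' * (1 - 1 / (g' / u')) ^ (ρ + μ) := hIH
      _ ≤ u' * ((g' / u' - μ) / (g / u) * (1 - 1 / (g / u)) ^ ρ) :=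
          mul_le_mul_of_nonneg_left hmain hU'.le
      _ = (u' * ((g' / u' - μ) / (g / u))) * (1 - 1 / (g / u)) ^ ρ := by ring
      _ ≤ u * (1 - 1 / (g / u)) ^ ρ :=
          mul_le_mul_of_nonneg_right huu (Real.rpow_nonneg hbx _)

/-- Feige's inequality for independent `{0, a_i}`-valued variables with means at most one, in the
sharp form. -/
theorem feige_sharp (hq : ∀ i, 0 < q i ∧ q i < 1) (ha : ∀ i, 0 < a i) (hμ : ∀ i, q i * a i ≤ 1)
    {T : ℝ} (hT : 1 < T) (s : Finset ι) (hM : ∑ i ∈ s, q i * a i ≤ T - 1) :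
    (1 - 1 / T) ^ (T - 1) ≤ U q a T s := by
  have h := potential hq ha hμ hT s.card s rfl hM
  have hT0 : 0 < T := by linarith
  have hU := U_pos (a := a) hq hT0 s
  have hge : T - ∑ j ∈ s, q j * a j ≤ G q a T s := G_ge (a := a) hq T s
  have hu1 : U q a T s ≤ 1 := U_le_one hq T s
  have hx : 1 ≤ G q a T s / U q a T s := by
    rw [le_div_iff₀ hU]
    linarith
  have hx0 : 0 < G q a T s / U q a T s := by linarith
  have hb0 : 0 ≤ 1 - 1 / (G q a T s / U q a T s) := by
    rw [sub_nonneg, div_le_one hx0]; linarith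
  have hb1 : 1 - 1 / (G q a T s / U q a T s) ≤ 1 := by
    have : 0 ≤ 1 / (G q a T s / U q a T s) := by positivity
    linarith
  have h2 : (1 - 1 / (G q a T s / U q a T s)) ^ (T - 1 - ∑ i ∈ s, q i * a i) ≤ 1 :=
    Real.rpow_le_one hb0 hb1 (by linarith)
  calc (1 - 1 / T) ^ (T - 1) ≤ _ := h
    _ ≤ U q a T s * 1 := mul_le_mul_of_nonneg_left h2 hU.le
    _ = _ := mul_one _

theorem exp_neg_one_le {T : ℝ} (hT : 1 < T) : Real.exp (-1) ≤ (1 - 1 / T) ^ (T - 1) := by
  have hT0 : 0 < T := by linarith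
  have hb : 0 < 1 - 1 / T := by rw [sub_pos, div_lt_one hT0]; exact hT
  rw [Real.rpow_def_of_pos hb]
  apply Real.exp_le_exp.mpr
  have h1 := Real.one_sub_inv_le_log_of_pos hb
  have h2 : 1 - (1 - 1 / T)⁻¹ = -(1 / (T - 1)) := by
    have : T - 1 ≠ 0 := by linarith
    have h3 : 1 - 1 / T = (T - 1) / T := by field_simp
    rw [h3, inv_div]
    field_simp
    ring
  rw [h2] at h1
  have h4 : 0 < T - 1 := by linarith
  have h5 := mul_le_mul_of_nonneg_right h1 h4.le
  have h6 : -(1 / (T - 1)) * (T - 1) = -1 := by field_simp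
  linarith

theorem feige (hq : ∀ i, 0 < q i ∧ q i < 1) (ha : ∀ i, 0 < a i) (hμ : ∀ i, q i * a i ≤ 1)
    {T : ℝ} (hT : 1 < T) (s : Finset ι) (hM : ∑ i ∈ s, q i * a i ≤ T - 1) :
    Real.exp (-1) ≤ U q a T s :=
  (exp_neg_one_le hT).trans (feige_sharp hq ha hμ hT s hM)

end Pool.Agent.W840.FeigeCore
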