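import Mathlib

set_option autoImplicit false
open Finset

namespace Pool.Agent.W840.FeigeCore

variable {ι : Type*} [DecidableEq ι]

/-- Expectation of `f (∑_{i ∈ s} X_i)` for independent `X_i ∈ {0, a i}` with `P(X_i = a i) = q i`. -/
noncomputable def E (q a : ι → ℝ) (s : Finset ι) (f : ℝ → ℝ) : ℝ :=
  ∑ S ∈ s.powerset, ((∏ i ∈ S, q i) * ∏ i ∈ s \ S, (1 - q i)) * f (∑ i ∈ S, a i)

variable (q a : ι → ℝ)

theorem E_empty (f : ℝ → ℝ) : E q a ∅ f = f 0 := by
  simp [E]

theorem E_insert {i : ι} {s : Finset ι} (hi : i ∉ s) (f : ℝ → ℝ) :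
    E q a (insert i s) f
      = (1 - q i) * E q a s f + q i * E q a s (fun x => f (x + a i)) := by
  unfold E
  rw [Finset.sum_powerset_insert hi, Finset.mul_sum, Finset.mul_sum]
  congr 1
  · apply Finset.sum_congr rfl
    intro S hS
    have hS' : S ⊆ s := Finset.mem_powerset.mp hS
    have hiS : i ∉ S := fun h => hi (hS' h)
    have h1 : (insert i s) \ S = insert i (s \ S) := Finset.insert_sdiff_of_notMem s hiS
    have h2 : i ∉ s \ S := fun h => hi (Finset.mem_sdiff.mp h).1
    rw [h1, Finset.prod_insert h2]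
    ring
  · apply Finset.sum_congr rfl
    intro S hS
    have hS' : S ⊆ s := Finset.mem_powerset.mp hS
    have hiS : i ∉ S := fun h => hi (hS' h)
    have h1 : (insert i s) \ (insert i S) = s \ S := by
      ext x
      simp only [Finset.mem_sdiff, Finset.mem_insert]
      constructor
      · rintro ⟨h | h, h2⟩
        · exact absurd (Or.inl h) h2
        · exact ⟨h, fun h3 => h2 (Or.inr h3)⟩
      · rintro ⟨h, h2⟩
        refine ⟨Or.inr h, ?_⟩
        rintro (h3 | h3)
        · exact hi (h3 ▸ h)
        · exact h2 h3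
    rw [h1, Finset.prod_insert hiS, Finset.sum_insert hiS, add_comm (a i)]
    ring

theorem E_add (s : Finset ι) (f g : ℝ → ℝ) :
    E q a s (fun x => f x + g x) = E q a s f + E q a s g := by
  unfold E
  rw [← Finset.sum_add_distrib]
  exact Finset.sum_congr rfl fun S _ => by ring

theorem E_smul (s : Finset ι) (c : ℝ) (f : ℝ → ℝ) :
    E q a s (fun x => c * f x) = c * E q a s f := by
  unfold E
  rw [Finset.mul_sum]
  exact Finset.sum_congr rfl fun S _ => by ring

theorem E_sub (s : Finset ι) (f g : ℝ → ℝ) :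
    E q a s (fun x => f x - g x) = E q a s f - E q a s g := by
  unfold E
  rw [← Finset.sum_sub_distrib]
  exact Finset.sum_congr rfl fun S _ => by ring

theorem E_const (s : Finset ι) (c : ℝ) : E q a s (fun _ => c) = c := by
  induction s using Finset.induction_on with
  | empty => simp [E_empty]
  | insert i s hi ih =>
    rw [E_insert q a hi, ih]
    ring

variable {q a}

theorem E_nonneg (hq : ∀ i, 0 ≤ q i ∧ q i ≤ 1) (s : Finset ι) {f : ℝ → ℝ} (hf : ∀ x, 0 ≤ f x) :
    0 ≤ E q a s f := by
  unfold E
  refine Finset.sum_nonneg fun S _ => mul_nonneg (mul_nonneg ?_ ?_) (hf _)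
  · exact Finset.prod_nonneg fun i _ => (hq i).1
  · exact Finset.prod_nonneg fun i _ => by linarith [(hq i).2]

theorem E_mono (hq : ∀ i, 0 ≤ q i ∧ q i ≤ 1) (s : Finset ι) {f g : ℝ → ℝ} (hfg : ∀ x, f x ≤ g x) :
    E q a s f ≤ E q a s g := by
  have := E_nonneg (a := a) hq s (f := fun x => g x - f x) (fun x => by linarith [hfg x])
  rw [E_sub] at this
  linarith

variable (q a)

/-- `E[S f(S)] = ∑ q_i a_i E[f(S^{(i)} + a_i)]`. -/
theorem stein (s : Finset ι) : ∀ f : ℝ → ℝ,
    E q a s (fun x => x * f x)
      = ∑ i ∈ s, q i * a i * E q a (s.erase i) (fun x => f (x + a i)) := by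
  induction s using Finset.induction_on with
  | empty => intro f; simp [E_empty]
  | insert j s hj ih =>
    intro f
    rw [E_insert q a hj]
    have h1 : E q a s (fun x => (x + a j) * f (x + a j))
        = E q a s (fun x => x * f (x + a j)) + a j * E q a s (fun x => f (x + a j)) := by
      rw [← E_smul, ← E_add]
      congr 1
      ext x
      ring
    rw [h1, ih f, ih (fun x => f (x + a j)), Finset.sum_insert hj]
    have h2 : (insert j s).erase j = s := Finset.erase_insert hj
    rw [h2]
    have h3 : ∑ i ∈ s, q i * a i * E q a ((insert j s).erase i) (fun x => f (x + a i))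
        = ∑ i ∈ s, ((1 - q j) * (q i * a i * E q a (s.erase i) (fun x => f (x + a i)))
            + q j * (q i * a i * E q a (s.erase i) (fun x => f (x + a i + a j)))) := by
      apply Finset.sum_congr rfl
      intro i hi
      have hij : i ≠ j := fun h => hj (h ▸ hi)
      have h4 : (insert j s).erase i = insert j (s.erase i) := by
        rw [Finset.erase_insert_of_ne (Ne.symm hij)]
      have h5 : j ∉ s.erase i := fun h => hj (Finset.mem_of_mem_erase h)
      rw [h4, E_insert q a h5]
      have h6 : (fun x => f (x + a j + a i)) = (fun x => f (x + a i + a j)) := by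
        ext x; congr 1; ring
      rw [h6]
      ring
    rw [h3, Finset.sum_add_distrib, ← Finset.mul_sum, ← Finset.mul_sum]
    ring

/-- Main identity: `E[S f(S)] = M E[f(S)] - ∑ (a_i - μ_i) (E[f(S^{(i)})] - E[f(S)])`. -/
theorem ident (s : Finset ι) (f : ℝ → ℝ) :
    E q a s (fun x => x * f x)
      = (∑ i ∈ s, q i * a i) * E q a s f
        - ∑ i ∈ s, (a i - q i * a i) * (E q a (s.erase i) f - E q a s f) := by
  rw [stein, Finset.sum_mul, ← Finset.sum_sub_distrib]
  apply Finset.sum_congr rfl
  intro i hi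
  have h := E_insert q a (Finset.notMem_erase i s) f
  rw [Finset.insert_erase hi] at h
  have h2 : q i * E q a (s.erase i) (fun x => f (x + a i))
      = E q a s f - (1 - q i) * E q a (s.erase i) f := by linarith
  calc q i * a i * E q a (s.erase i) (fun x => f (x + a i))
      = a i * (q i * E q a (s.erase i) (fun x => f (x + a i))) := by ring
    _ = _ := by rw [h2]; ring

/-- indicator of `x < T` -/
noncomputable def ind (T x : ℝ) : ℝ := if x < T then 1 else 0

/-- positive part of `T - x` -/
noncomputable def pos (T x : ℝ) : ℝ := max (T - x) 0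

theorem ind_nonneg (T x : ℝ) : 0 ≤ ind T x := by unfold ind; split_ifs <;> norm_num
theorem ind_le_one (T x : ℝ) : ind T x ≤ 1 := by unfold ind; split_ifs <;> norm_num
theorem pos_nonneg (T x : ℝ) : 0 ≤ pos T x := le_max_right _ _

theorem x_mul_ind (T x : ℝ) : x * ind T x = T * ind T x - pos T x := by
  unfold ind pos
  split_ifs with h
  · rw [max_eq_left (by linarith)]; ring
  · rw [max_eq_right (by linarith)]; ring

theorem x_mul_pos (T x : ℝ) : x * pos T x = T * pos T x - pos T x ^ 2 := by
  unfold pos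
  rcases le_total (T - x) 0 with h | h
  · rw [max_eq_right h]; ring
  · rw [max_eq_left h]; ring

theorem ind_mul_pos (T x : ℝ) : ind T x * pos T x = pos T x := by
  unfold ind pos
  split_ifs with h
  · ring
  · rw [max_eq_right (by linarith)]; ring

theorem ind_sq (T x : ℝ) : ind T x ^ 2 = ind T x := by
  unfold ind; split_ifs <;> norm_num

theorem pos_shift (T x c : ℝ) (hc : 0 ≤ c) : pos T x - c * ind T x ≤ pos T (x + c) := by
  unfold pos ind
  split_ifs with h
  · rw [max_eq_left (by linarith)]
    calc T - x - c * 1 = T - (x + c) := by ring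
      _ ≤ _ := le_max_left _ _
  · rw [max_eq_right (by linarith)]
    simp

noncomputable def U (T : ℝ) (s : Finset ι) : ℝ := E q a s (ind T)
noncomputable def G (T : ℝ) (s : Finset ι) : ℝ := E q a s (pos T)
noncomputable def H (T : ℝ) (s : Finset ι) : ℝ := E q a s (fun x => pos T x ^ 2)

theorem identU (T : ℝ) (s : Finset ι) :
    G q a T s - (T - ∑ i ∈ s, q i * a i) * U q a T s
      = ∑ i ∈ s, (a i - q i * a i) * (U q a T (s.erase i) - U q a T s) := by
  have h := ident q a s (ind T)
  have h2 : E q a s (fun x => x * ind T x) = T * U q a T s - G q a T s := by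
    unfold U G
    rw [← E_smul, ← E_sub]
    congr 1
    ext x
    exact x_mul_ind T x
  rw [h2] at h
  unfold U at *
  linarith

theorem identG (T : ℝ) (s : Finset ι) :
    H q a T s - (T - ∑ i ∈ s, q i * a i) * G q a T s
      = ∑ i ∈ s, (a i - q i * a i) * (G q a T (s.erase i) - G q a T s) := by
  have h := ident q a s (pos T)
  have h2 : E q a s (fun x => x * pos T x) = T * G q a T s - H q a T s := by
    unfold G H
    rw [← E_smul, ← E_sub]
    congr 1
    ext x
    exact x_mul_pos T x
  rw [h2] at h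
  unfold G at *
  linarith

variable {q a}

theorem cs (hq : ∀ i, 0 ≤ q i ∧ q i ≤ 1) (T : ℝ) (s : Finset ι) (hU : 0 < U q a T s) :
    G q a T s ^ 2 ≤ U q a T s * H q a T s := by
  set u := U q a T s with hu
  set g := G q a T s with hg
  have h := E_nonneg (a := a) hq s (f := fun x => (u * pos T x - g * ind T x) ^ 2)
    (fun x => sq_nonneg _)
  have h2 : (fun x => (u * pos T x - g * ind T x) ^ 2)
      = (fun x => (u ^ 2 * pos T x ^ 2 + (-(2 * u * g)) * pos T x) + g ^ 2 * ind T x) := by
    ext x
    have h3 := ind_mul_pos T x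
    have h4 := ind_sq T x
    calc (u * pos T x - g * ind T x) ^ 2
        = u ^ 2 * pos T x ^ 2 - 2 * u * g * (ind T x * pos T x) + g ^ 2 * ind T x ^ 2 := by ring
      _ = _ := by rw [h3, h4]; ring
  rw [h2, E_add q a s (fun x => u ^ 2 * pos T x ^ 2 + (-(2 * u * g)) * pos T x)
    (fun x => g ^ 2 * ind T x), E_add q a s (fun x => u ^ 2 * pos T x ^ 2)
    (fun x => (-(2 * u * g)) * pos T x), E_smul, E_smul, E_smul] at h
  change 0 ≤ u ^ 2 * H q a T s + (-(2 * u * g)) * g + g ^ 2 * u at h
  have h5 : 0 ≤ u * (u * H q a T s - g ^ 2) := by nlinarith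
  have h6 : 0 ≤ u * H q a T s - g ^ 2 := by
    by_contra hcon
    push Not at hcon
    have := mul_neg_of_pos_of_neg hU hcon
    linarith
  linarith

/-- Key lemma: some item can be removed without decreasing the conditional mean slack. -/
theorem exists_good (hq : ∀ i, 0 < q i ∧ q i < 1) (ha : ∀ i, 0 < a i) (T : ℝ) (s : Finset ι)
    (hs : s.Nonempty) (hU : 0 < U q a T s) :
    ∃ i ∈ s, G q a T s * U q a T (s.erase i) ≤ U q a T s * G q a T (s.erase i) := by
  by_contra hcon
  push Not at hcon
  have hc : ∀ i, 0 < a i - q i * a i := by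
    intro i
    have : a i - q i * a i = a i * (1 - q i) := by ring
    rw [this]
    exact mul_pos (ha i) (by linarith [(hq i).2])
  have h1 := identU q a T s
  have h2 := identG q a T s
  have h3 := cs (a := a) (fun i => ⟨(hq i).1.le, (hq i).2.le⟩) T s hU
  have h4 : ∑ i ∈ s, (a i - q i * a i) * (U q a T s * (G q a T (s.erase i) - G q a T s))
      < ∑ i ∈ s, (a i - q i * a i) * (G q a T s * (U q a T (s.erase i) - U q a T s)) := by
    apply Finset.sum_lt_sum_of_nonempty hs
    intro i hi
    apply mul_lt_mul_of_pos_left _ (hc i)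
    have := hcon i hi
    nlinarith
  have h5 : ∑ i ∈ s, (a i - q i * a i) * (U q a T s * (G q a T (s.erase i) - G q a T s))
      = U q a T s * (H q a T s - (T - ∑ i ∈ s, q i * a i) * G q a T s) := by
    rw [h2, Finset.mul_sum]
    exact Finset.sum_congr rfl fun i _ => by ring
  have h6 : ∑ i ∈ s, (a i - q i * a i) * (G q a T s * (U q a T (s.erase i) - U q a T s))
      = G q a T s * (G q a T s - (T - ∑ i ∈ s, q i * a i) * U q a T s) := by
    rw [h1, Finset.mul_sum]
    exact Finset.sum_congr rfl fun i _ => by ring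
  rw [h5, h6] at h4
  nlinarith

theorem U_pos (hq : ∀ i, 0 < q i ∧ q i < 1) {T : ℝ} (hT : 0 < T) (s : Finset ι) :
    0 < U q a T s := by
  unfold U E
  have h0 : ∀ S ∈ s.powerset,
      0 ≤ ((∏ i ∈ S, q i) * ∏ i ∈ s \ S, (1 - q i)) * ind T (∑ i ∈ S, a i) := by
    intro S _
    refine mul_nonneg (mul_nonneg ?_ ?_) (ind_nonneg _ _)
    · exact Finset.prod_nonneg fun i _ => (hq i).1.le
    · exact Finset.prod_nonneg fun i _ => by linarith [(hq i).2]
  refine lt_of_lt_of_le ?_ (Finset.single_le_sum h0 (Finset.empty_mem_powerset s))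
  simp only [Finset.prod_empty, Finset.sdiff_empty, Finset.sum_empty, one_mul]
  have : ind T 0 = 1 := by unfold ind; rw [if_pos hT]
  rw [this, mul_one]
  exact Finset.prod_pos fun i _ => by linarith [(hq i).2]

theorem U_le_one (hq : ∀ i, 0 < q i ∧ q i < 1) (T : ℝ) (s : Finset ι) : U q a T s ≤ 1 := by
  have := E_mono (a := a) (fun i => ⟨(hq i).1.le, (hq i).2.le⟩) s (f := ind T)
    (g := fun _ => (1 : ℝ)) (ind_le_one T)
  rw [E_const] at this
  exact this

theorem E_id (s : Finset ι) : E q a s (fun x => x) = ∑ i ∈ s, q i * a i := by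
  have h := stein q a s (fun _ => (1 : ℝ))
  simp only [mul_one] at h
  rw [h]
  exact Finset.sum_congr rfl fun i _ => by rw [E_const]; ring

theorem G_ge (hq : ∀ i, 0 < q i ∧ q i < 1) (T : ℝ) (s : Finset ι) :
    T - ∑ i ∈ s, q i * a i ≤ G q a T s := by
  have := E_mono (a := a) (fun i => ⟨(hq i).1.le, (hq i).2.le⟩) s (f := fun x => T - x)
    (g := pos T) (fun x => le_max_left _ _)
  rw [E_sub q a s (fun _ => T) (fun x => x), E_const, E_id] at this
  exact this

/-- `G(s) ≥ G(s \ i) - μ_i U(s \ i)`. -/
theorem G_step (hq : ∀ i, 0 < q i ∧ q i < 1) (ha : ∀ i, 0 < a i) (T : ℝ) (s : Finset ι)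
    {i : ι} (hi : i ∈ s) :
    G q a T (s.erase i) - q i * a i * U q a T (s.erase i) ≤ G q a T s := by
  have h := E_insert q a (Finset.notMem_erase i s) (pos T)
  rw [Finset.insert_erase hi] at h
  have h2 := E_mono (a := a) (fun i => ⟨(hq i).1.le, (hq i).2.le⟩) (s.erase i)
    (f := fun x => pos T x - a i * ind T x) (g := fun x => pos T (x + a i))
    (fun x => pos_shift T x (a i) (ha i).le)
  rw [E_sub, E_smul] at h2
  unfold G U
  rw [h]
  have h3 := mul_le_mul_of_nonneg_left h2 (hq i).1.le
  nlinarith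

end Pool.Agent.W840.FeigeCore
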