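import Pool.Agent.W840.FeigeMain

set_option autoImplicit false
open Finset

namespace Pool.Agent.W840.FeigeCore

variable {ι : Type*} [DecidableEq ι] {q a : ι → ℝ}

/-! ### versions with `0 ≤ q < 1`, `0 ≤ a` -/

theorem U_pos' (hq : ∀ i, 0 ≤ q i ∧ q i < 1) {T : ℝ} (hT : 0 < T) (s : Finset ι) :
    0 < U q a T s := by
  unfold U E
  have h0 : ∀ S ∈ s.powerset,
      0 ≤ ((∏ i ∈ S, q i) * ∏ i ∈ s \ S, (1 - q i)) * ind T (∑ i ∈ S, a i) := by
    intro S _
    refine mul_nonneg (mul_nonneg ?_ ?_) (ind_nonneg _ _)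
    · exact Finset.prod_nonneg fun i _ => (hq i).1
    · exact Finset.prod_nonneg fun i _ => by linarith [(hq i).2]
  refine lt_of_lt_of_le ?_ (Finset.single_le_sum h0 (Finset.empty_mem_powerset s))
  simp only [Finset.prod_empty, Finset.sdiff_empty, Finset.sum_empty, one_mul]
  have : ind T 0 = 1 := by unfold ind; rw [if_pos hT]
  rw [this, mul_one]
  exact Finset.prod_pos fun i _ => by linarith [(hq i).2]

theorem U_le_one' (hq : ∀ i, 0 ≤ q i ∧ q i ≤ 1) (T : ℝ) (s : Finset ι) : U q a T s ≤ 1 := by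
  have := E_mono (a := a) hq s (f := ind T) (g := fun _ => (1 : ℝ)) (ind_le_one T)
  rw [E_const] at this
  exact this

theorem G_ge' (hq : ∀ i, 0 ≤ q i ∧ q i ≤ 1) (T : ℝ) (s : Finset ι) :
    T - ∑ i ∈ s, q i * a i ≤ G q a T s := by
  have := E_mono (a := a) hq s (f := fun x => T - x) (g := pos T) (fun x => le_max_left _ _)
  rw [E_sub q a s (fun _ => T) (fun x => x), E_const, E_id] at this
  exact this

theorem G_step' (hq : ∀ i, 0 ≤ q i ∧ q i ≤ 1) (ha : ∀ i, 0 ≤ a i) (T : ℝ) (s : Finset ι)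
    {i : ι} (hi : i ∈ s) :
    G q a T (s.erase i) - q i * a i * U q a T (s.erase i) ≤ G q a T s := by
  have h := E_insert q a (Finset.notMem_erase i s) (pos T)
  rw [Finset.insert_erase hi] at h
  have h2 := E_mono (a := a) hq (s.erase i)
    (f := fun x => pos T x - a i * ind T x) (g := fun x => pos T (x + a i))
    (fun x => pos_shift T x (a i) (ha i))
  rw [E_sub, E_smul] at h2
  unfold G U
  rw [h]
  have h3 := mul_le_mul_of_nonneg_left h2 (hq i).1
  nlinarith

theorem U_anti (hq : ∀ i, 0 ≤ q i ∧ q i ≤ 1) (ha : ∀ i, 0 ≤ a i) (T : ℝ) (s : Finset ι)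
    {i : ι} (hi : i ∈ s) : U q a T s ≤ U q a T (s.erase i) := by
  have h := E_insert q a (Finset.notMem_erase i s) (ind T)
  rw [Finset.insert_erase hi] at h
  have h2 := E_mono (a := a) hq (s.erase i)
    (f := fun x => ind T (x + a i)) (g := ind T) (fun x => by
      unfold ind
      by_cases h1 : x + a i < T
      · rw [if_pos h1, if_pos (by linarith [ha i])]
      · rw [if_neg h1]; split_ifs <;> norm_num)
  unfold U
  rw [h]
  have h3 := mul_le_mul_of_nonneg_left h2 (hq i).1
  nlinarith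

theorem exists_good' (hq : ∀ i, 0 ≤ q i ∧ q i < 1) (ha : ∀ i, 0 ≤ a i) (T : ℝ) (s : Finset ι)
    (hs : s.Nonempty) (hU : 0 < U q a T s) :
    ∃ i ∈ s, G q a T s * U q a T (s.erase i) ≤ U q a T s * G q a T (s.erase i) := by
  by_cases hnull : ∃ i ∈ s, q i = 0 ∨ a i = 0
  · obtain ⟨i, hi, hi0⟩ := hnull
    refine ⟨i, hi, ?_⟩
    have hE : ∀ f : ℝ → ℝ, E q a s f = E q a (s.erase i) f := by
      intro f
      have h := E_insert q a (Finset.notMem_erase i s) f
      rw [Finset.insert_erase hi] at h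
      rw [h]
      rcases hi0 with h0 | h0
      · rw [h0]; ring
      · simp only [h0, add_zero]; ring
    unfold U G
    rw [hE, hE]
    linarith [mul_comm (E q a (s.erase i) (pos T)) (E q a (s.erase i) (ind T))]
  · push Not at hnull
    by_contra hcon
    push Not at hcon
    have hc : ∀ i ∈ s, 0 < a i - q i * a i := by
      intro i hi
      have : a i - q i * a i = a i * (1 - q i) := by ring
      rw [this]
      exact mul_pos (lt_of_le_of_ne (ha i) (Ne.symm (hnull i hi).2)) (by linarith [(hq i).2])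
    have h1 := identU q a T s
    have h2 := identG q a T s
    have h3 := cs (a := a) (fun i => ⟨(hq i).1, (hq i).2.le⟩) T s hU
    have h4 : ∑ i ∈ s, (a i - q i * a i) * (U q a T s * (G q a T (s.erase i) - G q a T s))
        < ∑ i ∈ s, (a i - q i * a i) * (G q a T s * (U q a T (s.erase i) - U q a T s)) := by
      apply Finset.sum_lt_sum_of_nonempty hs
      intro i hi
      apply mul_lt_mul_of_pos_left _ (hc i hi)
      have := hcon i hi
      nlinarith
    have h5 : ∑ i ∈ s, (a i - q i * a i) * (U q a T s * (G q a T (s.erase i) - G q a T s))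
        = U q a T s * (H q a T s - (T - ∑ i ∈ s, q i * a i) * G q a T s) := by
      rw [h2, Finset.mul_sum]
      exact Finset.sum_congr rfl fun i _ => by ring
    have h6 : ∑ i ∈ s, (a i - q i * a i) * (G q a T s * (U q a T (s.erase i) - U q a T s))
        = G q a T s * (G q a T s - (T - ∑ i ∈ s, q i * a i) * U q a T s) := by
      rw [h1, Finset.mul_sum]
      exact Finset.sum_congr rfl fun i _ => by ring
    rw [h5, h6] at h4
    nlinarith

/-- One step of the removal chain: all the facts needed for a potential argument. -/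
theorem chain_step (hq : ∀ i, 0 ≤ q i ∧ q i < 1) (ha : ∀ i, 0 ≤ a i) {T : ℝ} (s : Finset ι)
    (hs : s.Nonempty) (hM : ∑ i ∈ s, q i * a i < T) :
    ∃ i ∈ s, ∃ x y : ℝ,
      0 < U q a T (s.erase i) ∧ 0 < U q a T s ∧
      x = G q a T s / U q a T s ∧ y = G q a T (s.erase i) / U q a T (s.erase i) ∧
      T - ∑ j ∈ s, q j * a j ≤ x ∧ T - ∑ j ∈ s.erase i, q j * a j ≤ y ∧
      x ≤ y ∧ y - q i * a i ≤ x ∧
      U q a T (s.erase i) * ((y - q i * a i) / x) ≤ U q a T s := by
  have hq' : ∀ i, 0 ≤ q i ∧ q i ≤ 1 := fun i => ⟨(hq i).1, (hq i).2.le⟩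
  have hm : ∀ i, 0 ≤ q i * a i := fun i => mul_nonneg (hq i).1 (ha i)
  have hT : 0 < T := lt_of_le_of_lt (Finset.sum_nonneg fun i _ => hm i) hM
  have hU := U_pos' (a := a) hq hT s
  obtain ⟨i, hi, hgood⟩ := exists_good' hq ha T s hs hU
  have hU' := U_pos' (a := a) hq hT (s.erase i)
  have hsum : ∑ j ∈ s.erase i, q j * a j + q i * a i = ∑ j ∈ s, q j * a j :=
    Finset.sum_erase_add s _ hi
  have hge := G_ge' (a := a) hq' T s
  have hge' := G_ge' (a := a) hq' T (s.erase i)
  have hu1 : U q a T s ≤ 1 := U_le_one' hq' T s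
  have hu1' : U q a T (s.erase i) ≤ 1 := U_le_one' hq' T (s.erase i)
  have hanti := U_anti hq' ha T s hi
  have hstep := G_step' hq' ha T s hi
  have hmi := hm i
  have hx : T - ∑ j ∈ s, q j * a j ≤ G q a T s / U q a T s := by
    rw [le_div_iff₀ hU]; nlinarith
  have hy : T - ∑ j ∈ s.erase i, q j * a j ≤ G q a T (s.erase i) / U q a T (s.erase i) := by
    rw [le_div_iff₀ hU']; nlinarith
  have hx0 : 0 < G q a T s / U q a T s := by linarith
  have hyx : 0 ≤ G q a T (s.erase i) / U q a T (s.erase i) - q i * a i := by linarith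
  refine ⟨i, hi, _, _, hU', hU, rfl, rfl, hx, hy, ?_, ?_, ?_⟩
  · rw [div_le_div_iff₀ hU hU']
    nlinarith
  · rw [le_div_iff₀ hU]
    have e1 : (G q a T (s.erase i) / U q a T (s.erase i) - q i * a i) * U q a T (s.erase i)
        = G q a T (s.erase i) - q i * a i * U q a T (s.erase i) := by field_simp
    have := mul_le_mul_of_nonneg_left hanti hyx
    linarith
  · have e1 : U q a T (s.erase i) * ((G q a T (s.erase i) / U q a T (s.erase i) - q i * a i)
        / (G q a T s / U q a T s))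
        = (G q a T (s.erase i) - q i * a i * U q a T (s.erase i)) / (G q a T s / U q a T s) := by
      field_simp
    rw [e1, div_le_iff₀ hx0]
    have e2 : U q a T s * (G q a T s / U q a T s) = G q a T s := by field_simp
    rw [e2]
    exact hstep

/-! ### the product bound when all means are at most `δ` -/

/-- `D ↦ D⁻¹ ∏ (1 - μ_j / D)` is decreasing on `[δ + ∑ μ_j, ∞)` when `μ_j ≤ δ`. -/
theorem prod_dec {μ : ι → ℝ} (hμ0 : ∀ i, 0 ≤ μ i) (R : Finset ι) {δ x y : ℝ} (hδ : 0 < δ)
    (hμδ : ∀ i ∈ R, μ i ≤ δ) (hx : δ + ∑ j ∈ R, μ j ≤ x) (hxy : x ≤ y) :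
    (∏ j ∈ R, (1 - μ j / y)) / y ≤ (∏ j ∈ R, (1 - μ j / x)) / x := by
  have hM : 0 ≤ ∑ j ∈ R, μ j := Finset.sum_nonneg fun i _ => hμ0 i
  have hx0 : 0 < x := by linarith
  have hy0 : 0 < y := by linarith
  have hjM : ∀ j ∈ R, μ j ≤ ∑ j ∈ R, μ j := fun j hj =>
    Finset.single_le_sum (fun i _ => hμ0 i) hj
  have hfac : ∀ j ∈ R, 0 < 1 - μ j / x := fun j hj => by
    rw [sub_pos, div_lt_one hx0]; linarith [hjM j hj]
  have hfacy : ∀ j ∈ R, 0 < 1 - μ j / y := fun j hj => by
    rw [sub_pos, div_lt_one hy0]; linarith [hjM j hj]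
  have hratio : ∏ j ∈ R, (1 - μ j / y)
      ≤ (∏ j ∈ R, (1 - μ j / x)) * Real.exp ((y - x) / y) := by
    have h1 : ∀ j ∈ R, (1 - μ j / y)
        ≤ (1 - μ j / x) * Real.exp ((y - x) / y * (μ j / (x - μ j))) := by
      intro j hj
      have hxj : 0 < x - μ j := by linarith [hjM j hj]
      have h2 := Real.add_one_le_exp ((y - x) / y * (μ j / (x - μ j)))
      have h3 : (1 - μ j / y) = (1 - μ j / x) * ((y - x) / y * (μ j / (x - μ j)) + 1) := by
        have := hxj.ne'
        field_simp
        ring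
      rw [h3]
      exact mul_le_mul_of_nonneg_left h2 (hfac j hj).le
    calc ∏ j ∈ R, (1 - μ j / y)
        ≤ ∏ j ∈ R, ((1 - μ j / x) * Real.exp ((y - x) / y * (μ j / (x - μ j)))) :=
          Finset.prod_le_prod (fun j hj => (hfacy j hj).le) h1
      _ = (∏ j ∈ R, (1 - μ j / x)) * Real.exp (∑ j ∈ R, (y - x) / y * (μ j / (x - μ j))) := by
          rw [Finset.prod_mul_distrib, Real.exp_sum]
      _ ≤ (∏ j ∈ R, (1 - μ j / x)) * Real.exp ((y - x) / y) := by
          apply mul_le_mul_of_nonneg_left _ (Finset.prod_nonneg fun j hj => (hfac j hj).le)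
          apply Real.exp_le_exp.mpr
          rw [← Finset.mul_sum]
          have h5 : 0 ≤ (y - x) / y := div_nonneg (by linarith) hy0.le
          have h6 : ∑ j ∈ R, μ j / (x - μ j) ≤ 1 := by
            rcases hM.eq_or_lt with h0 | h0
            · have hz : ∀ j ∈ R, μ j / (x - μ j) = 0 := by
                intro j hj
                have : μ j = 0 := le_antisymm (by linarith [hjM j hj]) (hμ0 j)
                rw [this, zero_div]
              rw [Finset.sum_eq_zero hz]; norm_num
            · calc ∑ j ∈ R, μ j / (x - μ j) ≤ ∑ j ∈ R, μ j / (∑ j ∈ R, μ j) := by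
                    apply Finset.sum_le_sum
                    intro j hj
                    apply div_le_div_of_nonneg_left (hμ0 j) h0
                    linarith [hμδ j hj]
                _ = 1 := by rw [← Finset.sum_div, div_self h0.ne']
          nlinarith
  have he : Real.exp ((y - x) / y) ≤ y / x := by
    have h7 := Real.add_one_le_exp (-((y - x) / y))
    have h8 : -((y - x) / y) + 1 = x / y := by field_simp; ring
    rw [h8, Real.exp_neg] at h7
    have h9 : 0 < x / y := div_pos hx0 hy0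
    have h10 : Real.exp ((y - x) / y) ≤ (x / y)⁻¹ := by
      rw [le_inv_comm₀ (Real.exp_pos _) h9]
      exact h7
    rwa [inv_div] at h10
  have hP : 0 ≤ ∏ j ∈ R, (1 - μ j / x) := Finset.prod_nonneg fun j hj => (hfac j hj).le
  calc (∏ j ∈ R, (1 - μ j / y)) / y
      ≤ ((∏ j ∈ R, (1 - μ j / x)) * (y / x)) / y := by
        apply div_le_div_of_nonneg_right _ hy0.le
        exact hratio.trans (mul_le_mul_of_nonneg_left he hP)
    _ = _ := by field_simp

/-- Sharp product bound for `{0, a_i}`-valued items, all means at most `δ`. -/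
theorem prod_bound (hq : ∀ i, 0 ≤ q i ∧ q i < 1) (ha : ∀ i, 0 ≤ a i) {δ : ℝ} (hδ : 0 < δ)
    (hμδ : ∀ i, q i * a i ≤ δ) (A : Finset ι) {T : ℝ} (hT : T = δ + ∑ i ∈ A, q i * a i) :
    ∀ (k : ℕ) (s : Finset ι), s.card = k → s ⊆ A →
      ∏ i ∈ A, (1 - q i * a i / T)
        ≤ U q a T s * ∏ i ∈ A \ s, (1 - q i * a i / (G q a T s / U q a T s)) := by
  have hm : ∀ i, 0 ≤ q i * a i := fun i => mul_nonneg (hq i).1 (ha i)
  intro k
  induction k with
  | zero =>
    intro s hs _
    rw [Finset.card_eq_zero] at hs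
    subst hs
    have hT0 : 0 < T := by
      rw [hT]; have := Finset.sum_nonneg (s := A) fun i _ => hm i; linarith
    have h1 : U q a T ∅ = 1 := by
      unfold U; rw [E_empty]; unfold ind; rw [if_pos hT0]
    have h2 : G q a T ∅ = T := by
      unfold G; rw [E_empty]; unfold pos; rw [max_eq_left (by linarith)]; ring
    rw [h1, h2]
    simp
  | succ k ih =>
    intro s hs hsA
    have hne : s.Nonempty := by
      rw [← Finset.card_pos]; omega
    have hsplit : ∑ j ∈ A \ s, q j * a j + ∑ j ∈ s, q j * a j = ∑ j ∈ A, q j * a j :=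
      Finset.sum_sdiff hsA
    have hrest : 0 ≤ ∑ j ∈ A \ s, q j * a j := Finset.sum_nonneg fun i _ => hm i
    obtain ⟨i, hi, x, y, hU', hU, hxdef, hydef, hx, hy, hxy, _, hstep⟩ :=
      chain_step hq ha (T := T) s hne (by linarith)
    have hcard : (s.erase i).card = k := by
      rw [Finset.card_erase_of_mem hi]; omega
    have hIH := ih (s.erase i) hcard ((Finset.erase_subset _ _).trans hsA)
    have hsd : A \ (s.erase i) = insert i (A \ s) := by
      ext z
      simp only [Finset.mem_sdiff, Finset.mem_erase, Finset.mem_insert]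
      constructor
      · rintro ⟨h1, h2⟩
        by_cases hz : z = i
        · exact Or.inl hz
        · exact Or.inr ⟨h1, fun h => h2 ⟨hz, h⟩⟩
      · rintro (h | ⟨h1, h2⟩)
        · subst h; exact ⟨hsA hi, fun h => h.1 rfl⟩
        · exact ⟨h1, fun h => h2 h.2⟩
    have hins : i ∉ A \ s := fun h => (Finset.mem_sdiff.mp h).2 hi
    rw [hsd, Finset.prod_insert hins, ← hydef] at hIH
    rw [← hxdef]
    set μi := q i * a i with hμi
    have hx' : δ + ∑ j ∈ A \ s, q j * a j ≤ x := by linarith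
    have hx0 : 0 < x := by linarith
    have hy0 : 0 < y := by linarith
    have hdec := prod_dec (μ := fun j => q j * a j) hm (A \ s) hδ (fun i _ => hμδ i) hx' hxy
    have hsum : ∑ j ∈ s.erase i, q j * a j + q i * a i = ∑ j ∈ s, q j * a j :=
      Finset.sum_erase_add s _ hi
    have hyμ : 0 ≤ y - μi := by linarith
    have hPx : 0 ≤ ∏ j ∈ A \ s, (1 - q j * a j / x) := by
      apply Finset.prod_nonneg
      intro j hj
      rw [sub_nonneg, div_le_one hx0]
      have := Finset.single_le_sum (f := fun j => q j * a j) (fun i _ => hm i) hj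
      linarith
    calc ∏ i ∈ A, (1 - q i * a i / T)
        ≤ U q a T (s.erase i) * ((1 - μi / y) * ∏ j ∈ A \ s, (1 - q j * a j / y)) := hIH
      _ = U q a T (s.erase i) * (y - μi) * ((∏ j ∈ A \ s, (1 - q j * a j / y)) / y) := by
          field_simp
      _ ≤ U q a T (s.erase i) * (y - μi) * ((∏ j ∈ A \ s, (1 - q j * a j / x)) / x) :=
          mul_le_mul_of_nonneg_left hdec (mul_nonneg hU'.le hyμ)
      _ = (U q a T (s.erase i) * ((y - μi) / x)) * ∏ j ∈ A \ s, (1 - q j * a j / x) := by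
          field_simp
      _ ≤ U q a T s * ∏ j ∈ A \ s, (1 - q j * a j / x) :=
          mul_le_mul_of_nonneg_right hstep hPx

/-- If all means are at most `δ`, then `P(S < δ + E S) ≥ ∏ (1 - μ_i / (δ + E S))`. -/
theorem two_point_prod (hq : ∀ i, 0 ≤ q i ∧ q i < 1) (ha : ∀ i, 0 ≤ a i) {δ : ℝ} (hδ : 0 < δ)
    (hμδ : ∀ i, q i * a i ≤ δ) (A : Finset ι) :
    ∏ i ∈ A, (1 - q i * a i / (δ + ∑ j ∈ A, q j * a j))
      ≤ U q a (δ + ∑ j ∈ A, q j * a j) A := by
  have h := prod_bound hq ha hδ hμδ A rfl A.card A rfl (Finset.Subset.refl A)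
  simpa using h

end Pool.Agent.W840.FeigeCore
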